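import Pool.Agent.W902.C6.Stm2

/-!
# Limits of threefold convolutions
-/

set_option autoImplicit false

open Filter Topology

namespace Pool.Agent.W428.C6.ConvB

open Pool.Agent.W902.C6

theorem sum_fst (g : ℕ → ℝ) (m : ℕ) :
    ∑ x ∈ Finset.HasAntidiagonal.antidiagonal m, g x.1 = ∑ j ∈ Finset.range (m + 1), g j :=
  Finset.Nat.sum_antidiagonal_eq_sum_range_succ (fun i _ => g i) m

theorem sum_snd (g : ℕ → ℝ) (m : ℕ) :
    ∑ x ∈ Finset.HasAntidiagonal.antidiagonal m, g x.2 = ∑ j ∈ Finset.range (m + 1), g j := by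
  rw [← sum_fst g m, ← Finset.Nat.sum_antidiagonal_swap]
  rfl

theorem cesaro_succ {u : ℕ → ℝ} {a : ℝ} (h : Tendsto u atTop (𝓝 a)) :
    Tendsto (fun m : ℕ => ((m : ℝ) + 1)⁻¹ * ∑ i ∈ Finset.range (m + 1), |u i - a|) atTop (𝓝 0) := by
  have h1 : Tendsto (fun i => |u i - a|) atTop (𝓝 0) := by
    have := (h.sub_const a).abs
    simpa using this
  have h2 := h1.cesaro.comp (tendsto_add_atTop_nat 1)
  refine h2.congr fun m => ?_
  simp

theorem bdd_of_tendsto {w : ℕ → ℝ} {b : ℝ} (hw : Tendsto w atTop (𝓝 b)) :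
    ∃ C : ℝ, 0 ≤ C ∧ ∀ j, |w j| ≤ C := by
  obtain ⟨C, hC⟩ := (Metric.isBounded_range_of_tendsto w hw).exists_norm_le
  exact ⟨C, (norm_nonneg _).trans (hC _ ⟨0, rfl⟩), fun j => hC _ ⟨j, rfl⟩⟩

theorem conv {u w p : ℕ → ℝ} {a b : ℝ} (hu : Tendsto u atTop (𝓝 a)) (hw : Tendsto w atTop (𝓝 b))
    (hp : ∀ j, 0 < p j) (hm : Monotone p) :
    Tendsto (fun m : ℕ => (∑ x ∈ Finset.HasAntidiagonal.antidiagonal m, u x.1 * (w x.2 * p x.2) -
      a * b * ∑ j ∈ Finset.range (m + 1), p j) / (((m : ℝ) + 1) * p m)) atTop (𝓝 0) := by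
  obtain ⟨C, hC0, hC⟩ := bdd_of_tendsto hw
  have h1 := ((cesaro_succ hu).const_mul C).add ((cesaro_succ hw).const_mul |a|)
  rw [mul_zero, mul_zero, add_zero] at h1
  refine squeeze_zero_norm (fun m => ?_) h1
  have hm1 : (0 : ℝ) < (m : ℝ) + 1 := by positivity
  have hpm := hp m
  rw [Real.norm_eq_abs, abs_div, abs_of_pos (mul_pos hm1 hpm), div_le_iff₀ (mul_pos hm1 hpm)]
  have e1 : ∑ x ∈ Finset.HasAntidiagonal.antidiagonal m, u x.1 * (w x.2 * p x.2) -
      a * b * ∑ j ∈ Finset.range (m + 1), p j =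
      ∑ x ∈ Finset.HasAntidiagonal.antidiagonal m,
        ((u x.1 - a) * (w x.2 * p x.2) + a * ((w x.2 - b) * p x.2)) := by
    rw [← sum_snd p m, Finset.mul_sum, ← Finset.sum_sub_distrib]
    refine Finset.sum_congr rfl fun x _ => ?_
    ring
  have e2 : ∑ x ∈ Finset.HasAntidiagonal.antidiagonal m,
      (C * |u x.1 - a| * p m + |a| * |w x.2 - b| * p m) =
      (C * (((m : ℝ) + 1)⁻¹ * ∑ i ∈ Finset.range (m + 1), |u i - a|) +
        |a| * (((m : ℝ) + 1)⁻¹ * ∑ i ∈ Finset.range (m + 1), |w i - b|)) *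
        (((m : ℝ) + 1) * p m) := by
    rw [Finset.sum_add_distrib, ← Finset.sum_mul, ← Finset.sum_mul, ← Finset.mul_sum,
      ← Finset.mul_sum, sum_fst (fun i => |u i - a|) m, sum_snd (fun i => |w i - b|) m]
    field_simp
  rw [e1, ← e2]
  refine (Finset.abs_sum_le_sum_abs _ _).trans (Finset.sum_le_sum fun x hx => ?_)
  have hx2 : x.2 ≤ m := by
    rw [Finset.HasAntidiagonal.mem_antidiagonal] at hx
    omega
  have hpx := hp x.2
  have hpp := hm hx2
  refine (abs_add_le _ _).trans ?_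
  rw [abs_mul, abs_mul, abs_mul, abs_mul, abs_of_pos hpx]
  have k1 : |w x.2| * p x.2 ≤ C * p m := mul_le_mul (hC _) hpp hpx.le hC0
  have k2 : |w x.2 - b| * p x.2 ≤ |w x.2 - b| * p m := mul_le_mul_of_nonneg_left hpp (abs_nonneg _)
  have k3 := mul_le_mul_of_nonneg_left k1 (abs_nonneg (u x.1 - a))
  have k4 := mul_le_mul_of_nonneg_left k2 (abs_nonneg a)
  linarith

theorem main : S_convb := by
  intro x y z a b c hx hy hz
  set Y : ℕ → ℝ := fun m => ∑ q ∈ Finset.HasAntidiagonal.antidiagonal m, y q.1 * z q.2 with hY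
  have h1 := conv hy hz (p := fun _ => 1) (fun _ => one_pos) (fun _ _ _ => le_rfl)
  have hw : Tendsto (fun m : ℕ => Y m / ((m : ℝ) + 1)) atTop (𝓝 (b * c)) := by
    have h2 := h1.add_const (b * c)
    rw [zero_add] at h2
    refine h2.congr fun m => ?_
    have hm1 : ((m : ℝ) + 1) ≠ 0 := by positivity
    rw [Finset.sum_const, Finset.card_range, nsmul_eq_mul, hY]
    simp only [mul_one]
    push_cast
    field_simp
    ring
  have h3 := conv hx hw (p := fun j => (j : ℝ) + 1) (fun j => by positivity)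
    (fun i j hij => by
      have : (i : ℝ) ≤ j := by exact_mod_cast hij
      simpa using this)
  have hsum : ∀ m : ℕ, ∑ j ∈ Finset.range (m + 1), ((j : ℝ) + 1) =
      ((m : ℝ) + 1) * ((m : ℝ) + 2) / 2 := by
    intro m
    induction m with
    | zero => simp
    | succ m ih =>
      rw [Finset.sum_range_succ, ih]
      push_cast
      ring
  have hinv : Tendsto (fun m : ℕ => (m : ℝ)⁻¹) atTop (𝓝 0) := tendsto_inv_atTop_nhds_zero_nat
  have hinv1 : Tendsto (fun m : ℕ => ((m : ℝ) + 1)⁻¹) atTop (𝓝 0) := by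
    have := hinv.comp (tendsto_add_atTop_nat 1)
    refine this.congr fun m => ?_
    simp
  have h4 : Tendsto (fun m : ℕ => a * (b * c) * (1 + ((m : ℝ) + 1)⁻¹) / 2) atTop
      (𝓝 (a * (b * c) * (1 + 0) / 2)) := ((hinv1.const_add 1).const_mul _).div_const 2
  have h5 := h3.add h4
  have h6 : Tendsto (fun m : ℕ => (1 + (m : ℝ)⁻¹) ^ 2) atTop (𝓝 ((1 + 0) ^ 2)) :=
    (hinv.const_add 1).pow 2
  have h7 := h5.mul h6
  have e : (0 + a * (b * c) * (1 + 0) / 2) * (1 + 0) ^ 2 = a * b * c / 2 := by ring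
  rw [e] at h7
  refine h7.congr' ?_
  filter_upwards [eventually_gt_atTop 0] with m hm
  have hm0 : (m : ℝ) ≠ 0 := by exact_mod_cast hm.ne'
  have hm1 : ((m : ℝ) + 1) ≠ 0 := by positivity
  have e3 : ∀ j : ℕ, Y j / ((j : ℝ) + 1) * ((j : ℝ) + 1) = Y j := by
    intro j
    have : ((j : ℝ) + 1) ≠ 0 := by positivity
    field_simp
  simp only [e3]
  rw [hsum m]
  change _ = (∑ p ∈ Finset.HasAntidiagonal.antidiagonal m, x p.1 * Y p.2) / (m : ℝ) ^ 2
  field_simp
  ring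

end Pool.Agent.W428.C6.ConvB
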